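import Pool.Agent.R267.NM.Fin

/-!
# Bounded average doubling index on all tori of revolution

The torus is `ℝ² / (ℤ (a, 0) + ℤ (0, b))` with the metric `ρ(x) (dx² + dy²)`, where `ρ` is any
continuous positive `a`-periodic function (no smoothness or analyticity). For all constants
`C, C1, C2` there is `A` such that for every eigenvalue, every eigenfunction (multiple eigenvalues
included) and every admissible covering the average of the doubling indices is at most `A`: the
question of Nazarov, Polterovich and Sodin has a positive answer on all these surfaces.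
-/

set_option autoImplicit false

namespace Pool.Agent.Results.MP_c7f82c_an.AverageDoublingRevolution

open Pool.Agent.R267.DI

/-- Q1 for all tori of revolution: for all `C, C1, C2 > 0` there is `A` such that the average of the
doubling indices of the discs of every admissible covering of every eigenfunction is at most `A`. -/
theorem result (ρ : ℝ → ℝ) (a b : ℝ) (ha : 0 < a) (hb : 0 < b) (hρ : Continuous ρ)
    (hpos : ∀ x, 0 < ρ x) (hper : ∀ x, ρ (x + a) = ρ x) (C C1 C2 : ℝ) (hC : 0 < C) (hC1 : 0 < C1)
    (hC2 : 0 < C2) :
    ∃ A : ℝ, 0 < A ∧ ∀ (lam : ℝ) (φ : ℝ → ℝ → ℝ), 0 < lam → IsEigenfunction ρ a b 0 lam φ →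
      ∀ (ι : Type) [Fintype ι] (c : ι → ℝ × ℝ), IsAdmissible ρ a b 0 lam φ C C1 C2 c →
      (∑ i, doublingIndex ρ a b 0 φ (c i) (C / Real.sqrt lam)) / Fintype.card ι ≤ A :=
  Pool.Agent.R267.NM.average hρ ha hb hpos hper hC hC1 hC2

end Pool.Agent.Results.MP_c7f82c_an.AverageDoublingRevolution
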