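import Pool.Agent.R267.NL.Main

/-!
# Yau's upper bound for the nodal length on all Liouville tori

The torus is `ℝ² / (ℤ (a, 0) + ℤ (0, b))` with the metric `(f(x) + g(y)) (dx² + dy²)`, where `f` and
`g` are any smooth periodic functions with `f(x) + g(y) > 0` (for constant `g`: all tori of
revolution). No analyticity is assumed. Every eigenfunction with eigenvalue `λ`, also for multiple
eigenvalues, has nodal length at most `A √λ`.
-/

set_option autoImplicit false

namespace Pool.Agent.Results.MP_c7f82c_an.LiouvilleNodalLength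

open MeasureTheory
open scoped ContDiff ENNReal

/-- `φ` is a real eigenfunction with eigenvalue `lam` on the torus `ℝ² / (ℤ (a, 0) + ℤ (0, b))` with
the metric `(f(x) + g(y)) (dx² + dy²)`: smooth, doubly periodic, not identically zero, and
`Δ_g φ + lam φ = 0`, that is `φ_xx + φ_yy + lam (f(x) + g(y)) φ = 0`. -/
structure IsEigenfunction (f g : ℝ → ℝ) (a b lam : ℝ) (φ : ℝ → ℝ → ℝ) : Prop where
  smooth : ContDiff ℝ ∞ (fun p : ℝ × ℝ => φ p.1 p.2)
  perx : ∀ x y, φ (x + a) y = φ x y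
  pery : ∀ x y, φ x (y + b) = φ x y
  pde : ∀ x y, deriv (deriv (fun t => φ t y)) x + deriv (deriv (fun t => φ x t)) y
    + lam * (f x + g y) * φ x y = 0
  ne : ∃ x y, φ x y ≠ 0

/-- Nodal length: the length of the zero set of `φ` on the torus for the metric
`(f(x) + g(y)) (dx² + dy²)`, that is the integral of `√(f(x) + g(y))` over the zero set in the
fundamental domain `[0, a) × [0, b)` with respect to the one-dimensional Hausdorff measure of the
Euclidean plane. -/
noncomputable def nodalLength (f g : ℝ → ℝ) (a b : ℝ) (φ : ℝ → ℝ → ℝ) : ℝ≥0∞ :=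
  ∫⁻ p in {p : EuclideanSpace ℝ (Fin 2) | p 0 ∈ Set.Ico 0 a ∧ p 1 ∈ Set.Ico 0 b ∧
    φ (p 0) (p 1) = 0}, ENNReal.ofReal (Real.sqrt (f (p 0) + g (p 1))) ∂μH[1]

/-- Yau's upper bound `nodal length ≤ A √λ` for every Liouville torus with smooth metric, with a
constant `A` depending only on the metric. -/
theorem result (f g : ℝ → ℝ) (a b : ℝ) (ha : 0 < a) (hb : 0 < b) (hf : ContDiff ℝ ∞ f)
    (hg : ContDiff ℝ ∞ g) (hfa : ∀ x, f (x + a) = f x) (hgb : ∀ y, g (y + b) = g y)
    (hpos : ∀ x y, 0 < f x + g y) :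
    ∃ A : ℝ, 0 < A ∧ ∀ (lam : ℝ) (φ : ℝ → ℝ → ℝ), 0 < lam → IsEigenfunction f g a b lam φ →
      nodalLength f g a b φ ≤ ENNReal.ofReal (A * Real.sqrt lam) := by
  obtain ⟨F, hF⟩ := Pool.Agent.R267.NL.DimAux.bdd ha hf.continuous hfa
  obtain ⟨G, hG⟩ := Pool.Agent.R267.NL.DimAux.bdd hb hg.continuous hgb
  have hFG : 0 < F + G := by
    have h1 := hpos 0 0
    have h2 := (abs_le.1 (hF 0)).2
    have h3 := (abs_le.1 (hG 0)).2
    linarith
  refine ⟨Real.sqrt (F + G) * (200 * (a + b) ^ 2 * Real.sqrt (2 * (F + G))), by positivity, ?_⟩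
  intro lam φ hlam h
  have hs : Pool.Agent.R267.NL.Sol f g a b lam (fun p => φ p.1 p.2) :=
    ⟨h.smooth, h.perx, h.pery, fun p => h.pde p.1 p.2⟩
  have hmain := Pool.Agent.R267.NL.flat_length ha hb hlam hf hg hfa hgb hF hG hFG hpos hs h.ne
  set Z : Set (EuclideanSpace ℝ (Fin 2)) := {p | p 0 ∈ Set.Ico 0 a ∧ p 1 ∈ Set.Ico 0 b ∧
    φ (p 0) (p 1) = 0} with hZ
  have hsub : Z ⊆ {p : EuclideanSpace ℝ (Fin 2) | p 0 ∈ Set.Icc 0 a ∧ p 1 ∈ Set.Icc 0 b ∧
      φ (p 0) (p 1) = 0} := fun p hp => ⟨⟨hp.1.1, hp.1.2.le⟩, ⟨hp.2.1.1, hp.2.1.2.le⟩, hp.2.2⟩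
  have h1 : nodalLength f g a b φ ≤ ENNReal.ofReal (Real.sqrt (F + G)) * μH[1] Z := by
    unfold nodalLength
    refine (lintegral_mono (g := fun _ => ENNReal.ofReal (Real.sqrt (F + G))) fun p => ?_).trans ?_
    · refine ENNReal.ofReal_le_ofReal (Real.sqrt_le_sqrt ?_)
      have h2 := (abs_le.1 (hF (p 0))).2
      have h3 := (abs_le.1 (hG (p 1))).2
      linarith
    · rw [setLIntegral_const]
  refine h1.trans ?_
  have h2 := (measure_mono hsub).trans hmain
  calc ENNReal.ofReal (Real.sqrt (F + G)) * μH[1] Z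
      ≤ ENNReal.ofReal (Real.sqrt (F + G))
        * ENNReal.ofReal (200 * (a + b) ^ 2 * Real.sqrt (2 * lam * (F + G))) := by gcongr
    _ = ENNReal.ofReal (Real.sqrt (F + G) * (200 * (a + b) ^ 2 * Real.sqrt (2 * (F + G)))
        * Real.sqrt lam) := by
      rw [← ENNReal.ofReal_mul (Real.sqrt_nonneg _)]
      congr 1
      have e : 2 * lam * (F + G) = (2 * (F + G)) * lam := by ring
      rw [e, Real.sqrt_mul (by positivity)]
      ring

end Pool.Agent.Results.MP_c7f82c_an.LiouvilleNodalLength
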