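import Pool.Agent.R220.LV.Fin

/-!
# Doubling indices on Liouville tori

The torus is `ℝ × ℝ` modulo the lattice generated by `(L, 0)` and `(0, 2π)`, with the Liouville metric
`(f(x) + g(y))(dx² + dy²)`, where `f` and `g` are any continuous functions (`L`- and `2π`-periodic)
with `f(x) + g(y) > 0`; neither analyticity nor smoothness is assumed.

Let `K` be given. There is a constant `a` such that the doubling index of every disc of radius
`C / √λ` (wherever its center is) is at most `a` for all eigenfunctions which are sums of `K`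
separated eigenfunctions `X(x) Y(y)` of the same eigenvalue, and for all eigenfunctions whose
eigenvalue has multiplicity at most `K`. So the question of Nazarov, Polterovich and Sodin has a
positive answer for these tori when the multiplicities of the eigenvalues are bounded.

Proof. (i) The triple product `∫∫ a(x, y') b(x', y') c(x', y) dx' dy'` of three solutions of
`φ_xx + φ_yy + λ(f + g)φ = 0` is a solution, and so is its image under `A = ∂_x² + λ f`; a solution
orthogonal to its own triple product vanishes; hence `A` preserves an eigenspace of finite dimension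
and every eigenfunction of multiplicity at most `K` is a sum of at most `K` joint eigenfunctions,
`A e = μ e`, with `|μ| ≤ C λ`. (ii) On a line, a sum of `K` solutions of `w'' = (μ_k - λ f) w` is the
first member of a chain `U_i'' = U_{i+1} - q_i U_i` of length `K` with bounded coefficients (at the
scale `1/√λ`), and quantitative uniqueness for chains holds without any condition on the differences
of the `μ_k`.
-/

set_option autoImplicit false

namespace Pool.Agent.Results.MP_c7f82c_an.LiouvilleTori

open Pool.Agent.Y291.DB Pool.Agent.R220.TI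

/-- `φ` is a sum of `K` separated eigenfunctions `X(x) Y(y)` with eigenvalue `lam`. -/
def SeparatedSum (ρ : ℝ × ℝ → ℝ) (L lam : ℝ) (K : ℕ) (φ : ℝ × ℝ → ℝ) : Prop :=
  ∃ X Y : Fin K → ℝ → ℝ, (∀ k, Eigen ρ L 0 lam (fun p => X k p.1 * Y k p.2)) ∧
    ∀ p, φ p = ∑ k, X k p.1 * Y k p.2

/-- Let `f`, `g` be continuous, `L`-periodic and `2π`-periodic, with `f(x) + g(y) > 0`, and consider
the torus `ℝ²/(Lℤ × 2πℤ)` with the metric `(f(x) + g(y))(dx² + dy²)`. For every `C > 0` and `K` there
is `a` such that for every eigenvalue `lam` and every eigenfunction `φ` which is a sum of `K`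
separated eigenfunctions, or whose eigenvalue `lam` has multiplicity at most `K`, the doubling index
of every disc of radius `C / √lam` is at most `a`, and so is the average of the doubling indices of
the discs of every admissible covering (with any constants `C₁`, `C₂`). -/
theorem result (f g : ℝ → ℝ) (L : ℝ) (hL : 0 < L) (hf : Continuous f) (hg : Continuous g)
    (hfL : ∀ x, f (x + L) = f x) (hgp : ∀ y, g (y + 2 * Real.pi) = g y)
    (hpos : ∀ x y, 0 < f x + g y) (C : ℝ) (hC : 0 < C) (K : ℕ) :
    ∃ a : ℝ, 0 < a ∧ ∀ (lam : ℝ) (φ : ℝ × ℝ → ℝ), Eigen (fun p => f p.1 + g p.2) L 0 lam φ →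
      (SeparatedSum (fun p => f p.1 + g p.2) L lam K φ ∨
        MultiplicityLE (fun p => f p.1 + g p.2) L 0 lam K) →
      (∀ p, doubling (fun p => f p.1 + g p.2) L 0 φ p (C / Real.sqrt lam) ≤ a) ∧
      ∀ (C₁ C₂ : ℝ) (ι : Type) [Fintype ι] (c : ι → ℝ × ℝ),
        Admissible (fun p => f p.1 + g p.2) L 0 lam φ C C₁ C₂ c →
        ∑ i, doubling (fun p => f p.1 + g p.2) L 0 φ (c i) (C / Real.sqrt lam) ≤
          a * Fintype.card ι := by
  obtain ⟨a1, ha1, h1⟩ := Pool.Agent.R220.LV.bound_n K hf hg hL hfL hgp hpos hC
  obtain ⟨a2, ha2, h2⟩ := Pool.Agent.R220.LV.bound_mult K hf hg hL hfL hgp hpos hC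
  refine ⟨a1 + a2 + 1, by positivity, fun lam φ hφ h => ?_⟩
  have key : ∀ p, doubling (fun p => f p.1 + g p.2) L 0 φ p (C / Real.sqrt lam) ≤ a1 + a2 + 1 := by
    intro p
    rcases h with ⟨X, Y, hXY, hsum⟩ | h
    · have hj := fun k => Pool.Agent.R220.LV.joint_of_prod hf hg (hXY k)
      choose μ hμ using hj
      have h3 := h1 lam φ (fun k p => X k p.1 * Y k p.2) μ (fun _ => 1) hφ.pos
        (Pool.Agent.R220.LV.mem_of_eigen hf hg hφ) hμ (fun p => by simp [hsum p]) p
      linarith
    · have h3 := h2 lam φ hφ h p
      linarith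
  refine ⟨key, fun C₁ C₂ ι _ c _ => ?_⟩
  calc ∑ i, doubling (fun p => f p.1 + g p.2) L 0 φ (c i) (C / Real.sqrt lam)
      ≤ ∑ _i : ι, (a1 + a2 + 1) := Finset.sum_le_sum fun i _ => key (c i)
    _ = (a1 + a2 + 1) * Fintype.card ι := by
        rw [Finset.sum_const, Finset.card_univ, nsmul_eq_mul, mul_comm]

end Pool.Agent.Results.MP_c7f82c_an.LiouvilleTori
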