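import Pool.Agent.R220.TI.Main

/-!
# Doubling indices, number of angular frequencies and multiplicity on tori with a circle action

The torus is `ℝ × ℝ` modulo the lattice generated by `(L, α)` and `(0, 2π)`, with the metric
`r(x)(dx² + dy²)`, where `r` is any positive continuous `L`-periodic function.

For all discs of radius `C / √λ` the doubling index of an eigenfunction is at most `a` times the number
`K` of its angular frequencies, and the average of the doubling indices over every admissible covering
is at most `a (1 + log K)`; the same with the multiplicity `d` of the eigenvalue in place of `K`. So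
the question of Nazarov, Polterovich and Sodin has a positive answer for all eigenfunctions with a
bounded number of frequencies, and for all these tori whose eigenvalues have bounded multiplicity
(in this case with a bound for every disc of radius `C / √λ`, wherever its center is).
-/

set_option autoImplicit false

namespace Pool.Agent.Results.MP_c7f82c_an.MultiplicityBound

open Pool.Agent.Y291.DB Pool.Agent.R220.TI

/-- `φ` has at most `K` angular frequencies: at most `K` of the integers `k` have a Fourier coefficient
`∫_0^{2π} φ(x, y) e^{-iky} dy` that is nonzero for some `x`. -/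
def FrequenciesLE (φ : ℝ × ℝ → ℝ) (K : ℕ) : Prop :=
  ∀ S : Finset ℤ,
    (∀ k ∈ S, ∃ x : ℝ, (∫ y in (0 : ℝ)..(2 * Real.pi),
      (φ (x, y) : ℂ) * Complex.exp (-(k * y * Complex.I))) ≠ 0) → S.card ≤ K

/-- Let `r` be a continuous positive `L`-periodic function, and consider the torus with the metric
`r(x)(dx² + dy²)`. For all `C, C₁, C₂ > 0` there is `a` such that for every eigenvalue `lam` and every
eigenfunction `φ`: if `φ` has at most `K ≥ 1` frequencies then the doubling index of every disc of
radius `C / √lam` is at most `a K`, and the sum of the doubling indices of the discs of an admissible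
covering is at most `a (1 + log K) #B`; and if the multiplicity of `lam` is at most `d` then the same
bounds hold with `d` in place of `K`. -/
theorem result (r : ℝ → ℝ) (L α : ℝ) (hL : 0 < L) (hrc : Continuous r) (hrpos : ∀ x, 0 < r x)
    (hrx : ∀ x, r (x + L) = r x) (C C₁ C₂ : ℝ) (hC : 0 < C) (hC₁ : 0 < C₁) (hC₂ : 0 < C₂) :
    ∃ a : ℝ, 0 < a ∧
      (∀ (lam : ℝ) (K : ℕ) (φ : ℝ × ℝ → ℝ), Eigen (fun p => r p.1) L α lam φ → 1 ≤ K →
        FrequenciesLE φ K →
        (∀ p, doubling (fun p => r p.1) L α φ p (C / Real.sqrt lam) ≤ a * K) ∧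
        ∀ (ι : Type) [Fintype ι] (c : ι → ℝ × ℝ),
          Admissible (fun p => r p.1) L α lam φ C C₁ C₂ c →
          ∑ i, doubling (fun p => r p.1) L α φ (c i) (C / Real.sqrt lam) ≤
            a * (1 + Real.log K) * Fintype.card ι) ∧
      (∀ (lam : ℝ) (d : ℕ) (φ : ℝ × ℝ → ℝ), Eigen (fun p => r p.1) L α lam φ →
        MultiplicityLE (fun p => r p.1) L α lam d →
        (∀ p, doubling (fun p => r p.1) L α φ p (C / Real.sqrt lam) ≤ a * d) ∧
        ∀ (ι : Type) [Fintype ι] (c : ι → ℝ × ℝ),
          Admissible (fun p => r p.1) L α lam φ C C₁ C₂ c →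
          ∑ i, doubling (fun p => r p.1) L α φ (c i) (C / Real.sqrt lam) ≤
            a * (1 + Real.log d) * Fintype.card ι) := by
  obtain ⟨a, ha, h⟩ := main (α := α) hL hrc hrpos hrx hC hC₁ hC₂
  refine ⟨2 * a, by positivity, ?_, ?_⟩
  · intro lam K φ hφ hK hF
    have hK' : (1 : ℝ) ≤ K := by exact_mod_cast hK
    have hl : 0 ≤ Real.log K := Real.log_nonneg hK'
    obtain ⟨h1, h2⟩ := h lam K φ hφ (fun S hS => hF S fun k hk => by
      obtain ⟨x, hx⟩ := hS k hk
      refine ⟨x, fun h0 => hx ?_⟩
      unfold um ek
      rw [h0, mul_zero]) hK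
    refine ⟨fun p => (h1 p).trans ?_, fun ι _ c hc => (h2 ι c hc).trans ?_⟩
    · nlinarith
    · have h3 : 0 ≤ a * (1 + Real.log K) * Fintype.card ι := by positivity
      nlinarith
  · intro lam d φ hφ hd
    have hd1 := mult_pos hd hφ
    have hd1' : (1 : ℝ) ≤ d := by exact_mod_cast hd1
    have hl : 0 ≤ Real.log d := Real.log_nonneg hd1'
    obtain ⟨h1, h2⟩ := h lam (2 * d) φ hφ (freq_of_mult hrc hd hφ) (by omega)
    refine ⟨fun p => (h1 p).trans (le_of_eq ?_), fun ι _ c hc => (h2 ι c hc).trans ?_⟩
    · push_cast
      ring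
    · have hn0 : (0 : ℝ) ≤ Fintype.card ι := Nat.cast_nonneg _
      refine mul_le_mul_of_nonneg_right ?_ hn0
      have h3 : Real.log ((2 * d : ℕ) : ℝ) = Real.log 2 + Real.log d := by
        push_cast
        exact Real.log_mul (by norm_num) (by positivity)
      rw [h3]
      have h4 : Real.log 2 ≤ 1 := by
        have := Real.log_two_lt_d9
        linarith
      nlinarith [mul_nonneg ha.le hl, mul_le_mul_of_nonneg_left h4 ha.le]

end Pool.Agent.Results.MP_c7f82c_an.MultiplicityBound
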